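import Pool.Agent.Run7.h582.FM.Var
import Pool.Agent.Run7.h582.FM.Mono
import Pool.Agent.R501.LP1

/-!
# The least primes in almost all classes, for all moduli near `lam n * x + c n`, for almost every `x` of all measures with Fourier decay

Let `N n ≥ exp (n ^ η)`, and let `lam n`, `c n` be real numbers with `N n / log ^ T (N n) ≤ lam n ≤ B N n` and
`|c n| ≤ B N n`. A real number `x` is called generic if for all `A`, `W` and `ε > 0` and for all large `n` the property
`Good ε A q` below (which contains the bound `p(q, b) ≤ C φ(q) log² q` for all but a small proportion `2 / (C log q)` of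
the classes `b`) holds for ALL the moduli `q` at a distance of at most `log ^ W (N n)` from `lam n * x + c n`.

Almost every `x` is generic with respect to EVERY finite Borel measure with bounded support whose Fourier transform is
`O (|ξ| ^ (-δ))` for some `δ > 0`. Thus the set of the real numbers which are not generic has Fourier dimension zero.
For example one can take `lam n = b ^ n`, `c n = 0` (all the moduli near the integer formed by the first `n` digits of `x`).

The proof: the measure is replaced by finite families of real numbers with the same exponential sums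
(`Pool.Agent.Run7.h582.FM`); the large spectrum of the multiples of the members of such families is thin, and then the method
of the starting files (`Pool.Agent.Y958.RM`, `Pool.Agent.N384.MQ`) gives the variance for almost all members, and
`Pool.Agent.R501.LP` the least primes; the properties of the exponential sums of finite families of real numbers are from
helper844's files (`Pool.Agent.Run7.h844.RP`).
-/

set_option autoImplicit false

namespace Pool.Agent.Results.MP_5b0a7e_nt.FourierDecayModuli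

open Finset Filter MeasureTheory

open Classical in
/-- The number of the `b` with `0 ≤ b < q` and `gcd(b, q) = 1` for which no prime `p ≤ y` is congruent to `b` modulo
`q`; for `q ≥ 2` this is the number of the reduced classes with `p(q, b) > y`. -/
noncomputable def late (q : ℕ) (y : ℝ) : ℕ :=
  ((range q).filter (fun b => Nat.Coprime b q ∧ ∀ p : ℕ, p.Prime → (p : ℝ) ≤ y → ¬ p % q = b)).card

/-- `ψ(y; q, b) = ∑_{n ≤ y, n ≡ b mod q} Λ(n)` for `0 ≤ b < q`. -/
noncomputable def psiAP (y : ℝ) (q b : ℕ) : ℝ :=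
  ∑ n ∈ (Icc 1 ⌊y⌋₊).filter (fun n => n % q = b), ArithmeticFunction.vonMangoldt n

open Classical in
/-- The number of the `b` with `0 ≤ b < q` and `gcd(b, q) = 1` with `|ψ(y; q, b) - y / φ(q)| ≥ η y / φ(q)`. -/
noncomputable def off (q : ℕ) (y η : ℝ) : ℕ :=
  ((range q).filter (fun b => Nat.Coprime b q ∧ η * (y / (Nat.totient q : ℝ)) ≤
    |psiAP y q b - y / (Nat.totient q : ℝ)|)).card

/-- For all real `y = lam φ(q) log q` with `q ≤ y ≤ q (log q) ^ A`: the least prime `p(q, b)` is larger than `y` for at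
most `(1 + ε) φ(q) / (1 + lam)` of the reduced classes `b`, and for all `η > 0` at most `(1 + ε) φ(q) / (η² lam)` of the
reduced classes `b` have `|ψ(y; q, b) - y / φ(q)| ≥ η y / φ(q)`. -/
def Good (ε : ℝ) (A q : ℕ) : Prop :=
  ∀ y : ℝ, (q : ℝ) ≤ y → y ≤ q * Real.log q ^ A →
    (late q y : ℝ) * (1 + y / (Nat.totient q * Real.log q)) ≤ (1 + ε) * Nat.totient q ∧
    ∀ η : ℝ, 0 < η → (off q y η : ℝ) * (η ^ 2 * (y / (Nat.totient q * Real.log q))) ≤ (1 + ε) * Nat.totient q

/-- `N n ≥ exp (n ^ η)`, `|c n| ≤ B N n` and `N n / log ^ T (N n) ≤ lam n ≤ B N n` for large `n`. -/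
def Scales (η : ℝ) (B T : ℕ) (N : ℕ → ℕ) (lam c : ℕ → ℝ) : Prop :=
  ∀ᶠ n : ℕ in atTop, Real.exp ((n : ℝ) ^ η) ≤ N n ∧ |c n| ≤ B * N n ∧ lam n ≤ B * N n ∧
    (N n : ℝ) ≤ lam n * Real.log (N n) ^ T

/-- For all `A`, `W`, `ε > 0` and all large `n`, `Good ε A q` holds for all the integers `q ≥ 1` at a distance of at most
`log ^ W (N n)` from `lam n * x + c n`. -/
def Generic (N : ℕ → ℕ) (lam c : ℕ → ℝ) (x : ℝ) : Prop :=
  ∀ A W : ℕ, ∀ ε : ℝ, 0 < ε → ∀ᶠ n : ℕ in atTop, ∀ q : ℕ, 0 < q →
    |(q : ℝ) - (lam n * x + c n)| ≤ Real.log (N n) ^ W → Good ε A q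

/-- `μ` is a finite Borel measure with bounded support and its Fourier transform `ξ ↦ ∫ exp (i ξ t) dμ (t)` is
`O (|ξ| ^ (-δ))` for some `δ > 0`. -/
def FourierDecay (μ : Measure ℝ) : Prop :=
  IsFiniteMeasure μ ∧ (∃ R : ℝ, μ (Set.Icc (-R) R)ᶜ = 0) ∧ ∃ C δ : ℝ, 0 < δ ∧ ∀ ξ : ℝ, ξ ≠ 0 →
    ‖∫ t : ℝ, Complex.exp (((ξ * t : ℝ) : ℂ) * Complex.I) ∂μ‖ ≤ C * |ξ| ^ (-δ)

lemma good_mono {ε ε' : ℝ} (h : ε ≤ ε') {A q : ℕ} (hG : Good ε A q) : Good ε' A q := by
  intro y hy1 hy2
  obtain ⟨h1, h2⟩ := hG y hy1 hy2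
  have h3 : (1 + ε) * (Nat.totient q : ℝ) ≤ (1 + ε') * Nat.totient q :=
    mul_le_mul_of_nonneg_right (by linarith) (Nat.cast_nonneg _)
  exact ⟨h1.trans h3, fun η hη => (h2 η hη).trans h3⟩

lemma rcgood (ε : ℝ) (hε : 0 < ε) (hε1 : ε ≤ 1) (A : ℕ) : Pool.Agent.Run7.h582.FM.RCgood (Good ε A) := by
  obtain ⟨Q₀, h⟩ := Pool.Agent.R501.LP.lpg_of_var A ε hε hε1
  refine (Pool.Agent.Run7.h582.FM.rcgood_var (ε / 4) (by positivity) A).mono (Q₀ + 2) fun q hq hv => ?_
  exact (Pool.Agent.R501.LP.lpg_iff ε A q (by omega)).1 (h q (by omega) hv)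

/-- Let `η > 0`, `B`, `T` and sequences `N`, `lam`, `c` with `Scales η B T N lam c` be given. Then almost every real number
`x` is generic with respect to every measure `μ` with `FourierDecay μ`: for all `A`, `W`, `ε > 0` and all large `n`, for ALL
the moduli `q ≥ 1` with `|q - (lam n * x + c n)| ≤ log ^ W (N n)` and for all real `y = t φ(q) log q` with
`q ≤ y ≤ q (log q) ^ A`, one has `p(q, b) ≤ y` for all the reduced classes `b` modulo `q` with at most
`(1 + ε) φ(q) / (1 + t)` exceptions, and for all `ρ > 0` one has `|ψ(y; q, b) - y / φ(q)| < ρ y / φ(q)` with at most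
`(1 + ε) φ(q) / (ρ² t)` exceptions. -/
theorem result (η : ℝ) (hη : 0 < η) (B T : ℕ) (N : ℕ → ℕ) (lam c : ℕ → ℝ)
    (hS : Scales η B T N lam c) (μ : Measure ℝ) (hμ : FourierDecay μ) :
    ∀ᵐ x ∂μ, Generic N lam c x := by
  have key := Pool.Agent.Run7.h582.FM.ae_pos
    (fun i : ℕ × ℕ => Good (1 / ((i.1 : ℝ) + 1)) i.2)
    (fun i => rcgood _ (by positivity) (by
      rw [div_le_one (by positivity)]
      linarith [(Nat.cast_nonneg i.1 : (0 : ℝ) ≤ (i.1 : ℝ))]) i.2) μ hμ η hη B T N lam c hS
  filter_upwards [key] with x hx A W ε hε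
  obtain ⟨k, hk⟩ := exists_nat_one_div_lt hε
  filter_upwards [hx (k, A) W] with n hn q hq hqn
  exact good_mono hk.le (hn q hq hqn)

end Pool.Agent.Results.MP_5b0a7e_nt.FourierDecayModuli
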