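import Pool.Agent.Run7.h710.TR.Cnt
import Pool.Agent.N625.PT.K
import Pool.Agent.R501.LP1

/-!
# The least primes in almost all classes, for the multiples of moduli written by a transducer

The integers `v < a ^ k` are arbitrary, up to few exceptions; the transducer `T` reads the digits of `v` in base `a` and
writes the digits of `T(v)` in base `b` (definitions in `Pool.Agent.Run7.h710.TR.Defs`).

Method: if two words of `L` digits lead from the same state to the same state and different words are written, then the two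
parts of the exponential sum over the integers `T(v)` which belong to these words cancel in part at the places where the
frequency has a digit which is not extremal. The passage from such exponential sums to the variance and to the classes
without small primes is from the starting files (`Pool.Agent.N625.PT.t_var`, `Pool.Agent.R501.LP`).

Examples: the bitwise conjunction or disjunction of `v` and `m v` (the carries are the states); the integer whose digit `i`
is `f(x_i, x_{i+1}, …, x_{i+r})`, where `x_i` are the digits of `v` and `f` is not constant (one-sided cellular automata).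
-/

set_option autoImplicit false

namespace Pool.Agent.Results.MP_5b0a7e_nt.TransducerModuli

open Finset Pool.Agent.Run7.h710.TR

open Classical in
/-- The number of the `b` with `0 ≤ b < a` and `gcd(a, b) = 1` for which no prime `p ≤ x` is congruent to `b` modulo
`a`; for `a ≥ 2` this is the number of the reduced classes with `p(a, b) > x`. -/
noncomputable def late (a : ℕ) (x : ℝ) : ℕ :=
  ((range a).filter (fun b => Nat.Coprime b a ∧ ∀ p : ℕ, p.Prime → (p : ℝ) ≤ x → ¬ p % a = b)).card

/-- `ψ(x; a, b) = ∑_{n ≤ x, n ≡ b mod a} Λ(n)` for `0 ≤ b < a` -/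
noncomputable def psiAP (x : ℝ) (a b : ℕ) : ℝ :=
  ∑ n ∈ (Icc 1 ⌊x⌋₊).filter (fun n => n % a = b), ArithmeticFunction.vonMangoldt n

open Classical in
/-- The number of the `b` with `0 ≤ b < a` and `gcd(a, b) = 1` with `|ψ(x; a, b) - x / φ(a)| ≥ η x / φ(a)`. -/
noncomputable def off (a : ℕ) (x η : ℝ) : ℕ :=
  ((range a).filter (fun b => Nat.Coprime b a ∧ η * (x / (Nat.totient a : ℝ)) ≤
    |psiAP x a b - x / (Nat.totient a : ℝ)|)).card

/-- For all real `x = lam φ(a) log a` with `a ≤ x ≤ a (log a) ^ T`: the least prime `p(a, b)` is larger than `x` for at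
most `(1 + ε) φ(a) / (1 + lam)` of the reduced classes `b`, and for all `η > 0` at most `(1 + ε) φ(a) / (η² lam)` of the
reduced classes `b` have `|ψ(x; a, b) - x / φ(a)| ≥ η x / φ(a)`. -/
def Good (ε : ℝ) (T a : ℕ) : Prop :=
  ∀ x : ℝ, (a : ℝ) ≤ x → x ≤ a * Real.log a ^ T →
    (late a x : ℝ) * (1 + x / (Nat.totient a * Real.log a)) ≤ (1 + ε) * Nat.totient a ∧
    ∀ η : ℝ, 0 < η → (off a x η : ℝ) * (η ^ 2 * (x / (Nat.totient a * Real.log a))) ≤ (1 + ε) * Nat.totient a

lemma good_iff (ε : ℝ) (T a : ℕ) : Good ε T a ↔ Pool.Agent.R501.LP.LpG ε T a := Iff.rfl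

lemma good_of (ε : ℝ) (hε : 0 < ε) (hε1 : ε ≤ 1) (T : ℕ) : ∃ Q₀ : ℕ, ∀ Q : ℕ, Q₀ ≤ Q → (∀ x : ℝ, (Q : ℝ) ≤ x → x ≤ Q * Real.log Q ^ T →
    |Pool.Agent.TH894.PV.G x Q - x * Real.log Q| ≤ ε / 4 * (x * Real.log Q)) → Good ε T Q := by
  obtain ⟨Q₀, h⟩ := Pool.Agent.R501.LP.lpg_of_var T ε hε hε1
  refine ⟨Q₀ + 2, fun Q hQ hvar => ?_⟩
  rw [good_iff]
  exact (Pool.Agent.R501.LP.lpg_iff ε T Q (by omega)).1 (h Q (by omega) hvar)

open Classical in
/-- **The least primes in almost all classes, for all the multiples of the moduli near `c + κ T(v)`.** Let `a`, `b ≥ 2`,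
`L ≥ 1`, `κ ≠ 0`, `B`, `J`, `W`, `T`, `U` and `0 < ε ≤ 1` be fixed and let `k` be large. Let an arbitrary transducer be given which reads digits `< a` and writes digits `< b` (with finitely or infinitely many
states) such that from every state two words of `L` digits lead to the same state, while different words are written; let it
begin in an arbitrary state `s` and read from the left or from the right,
and let `c` be any integer with `|c| ≤ B b ^ k` (`k` must be large in terms of the fixed numbers only). Then all the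
`v < a ^ k`, with at most `a ^ k / k ^ U` exceptions, have the following property, where `v'` is the integer which is written
when `v` is read. For ALL the integers `q ≥ 1` at a distance of at most `k ^ W` from `c + κ v'`, ALL `h` with
`1 ≤ h ≤ k ^ J`, and all real `x = lam φ(d) log d` with `d ≤ x ≤ d log ^ T d`, where `d = h q`, one has `p(d, l) ≤ x` for all
reduced classes `l` modulo `d` with at most `(1 + ε) φ(d) / (1 + lam)` exceptions (for `lam = C₁ log d`:
`p(d, l) ≤ C₁ φ(d) (log d)²` with fewer than `(1 + ε) φ(d) / (C₁ log d)` exceptions), and for all `η > 0` one has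
`|ψ(x; d, l) - x / φ(d)| < η x / φ(d)` with at most `(1 + ε) φ(d) / (η² lam)` exceptions. -/
theorem result (a b L : ℕ) (hb : 2 ≤ b) (hL : 1 ≤ L) (κ : ℤ) (hκ : κ ≠ 0) (B J W T U : ℕ) (ε : ℝ) (hε : 0 < ε) (hε1 : ε ≤ 1) :
    ∃ k₀ : ℕ, ∀ k : ℕ, k₀ ≤ k → ∀ (S : Type) (δ : S → ℕ → S) (o : S → ℕ → ℕ), Transducer a b L δ o →
      ∀ (left : Bool) (s : S) (c : ℤ), |c| ≤ B * (b : ℤ) ^ k →
      (((range (a ^ k)).filter fun v => ¬ ∀ q : ℕ, 1 ≤ q → |(q : ℤ) - (c + κ * (image a b δ o left k s v : ℕ))| ≤ (k : ℤ) ^ W →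
        ∀ h : ℕ, 1 ≤ h → h ≤ k ^ J → Good ε T (h * q)).card : ℝ) ≤ (a : ℝ) ^ k / (k : ℝ) ^ U := by
  obtain ⟨Q₀, h0⟩ := good_of ε hε hε1 T
  obtain ⟨k₀, hmain⟩ := Pool.Agent.N625.PT.t_var (tr_tcls a b L hb hL κ hκ) B J W T U (ε / 4) (by positivity) (by linarith)
    (Good ε T) Q₀ h0
  refine ⟨k₀, fun k hk S δ o hT left s c hc => ?_⟩
  exact exceptions hb hT left k s (fun v => ∀ q : ℕ, 1 ≤ q → |(q : ℤ) - (c + κ * (v : ℕ))| ≤ (k : ℤ) ^ W →
    ∀ h : ℕ, 1 ≤ h → h ≤ k ^ J → Good ε T (h * q)) U (hmain k hk _ ⟨S, δ, o, left, s, hT, rfl⟩ c hc)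

end Pool.Agent.Results.MP_5b0a7e_nt.TransducerModuli
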